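import Pool.Agent.W809.DN.Stms

/-!
# The window estimate (S_WIN) from S_CHR, S_ANT and S_BLK
-/

set_option autoImplicit false

open Finset Filter Topology

namespace Pool.Agent.W613.DN

open Pool.Agent.W809.DN

theorem EE_cmul (δ : ℕ → ℝ) (S : Finset ℕ) (c : ℂ) (f : Finset ℕ → ℂ) :
    EE δ S (fun A => c * f A) = c * EE δ S f := by
  unfold EE
  rw [Finset.mul_sum]
  refine Finset.sum_congr rfl fun A _ => ?_
  rw [mul_smul_comm]

/-- the expectation of a unimodular function has norm at most one -/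
theorem norm_EE_le_one {δ : ℕ → ℝ} (h : ∀ s, 0 ≤ δ s ∧ δ s ≤ 1) (S : Finset ℕ)
    (f : Finset ℕ → ℝ) : ‖EE δ S (fun A => ee (f A))‖ ≤ 1 := by
  refine (norm_EE_le h S _).trans (le_of_eq ?_)
  simp only [norm_ee]
  exact EE_const δ S (1 : ℝ)

/-- sums of `r^{-(s+1)}` over subsets of `[a, M)` -/
theorem Z_le {r : ℕ} (hr : 2 ≤ r) {a M : ℕ} {V : Finset ℕ} (hV : V ⊆ Ico a M) :
    Z r V ≤ ((r : ℝ)⁻¹) ^ a := by
  have hr' : (2 : ℝ) ≤ r := by exact_mod_cast hr
  have hq0 : (0 : ℝ) < (r : ℝ)⁻¹ := by positivity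
  have hq : (r : ℝ)⁻¹ ≤ 1 / 2 := by
    rw [inv_eq_one_div]
    exact one_div_le_one_div_of_le (by norm_num) hr'
  have h1 : Z r V ≤ ∑ s ∈ Ico a M, ((r : ℝ)⁻¹) ^ (s + 1) := by
    unfold Z
    exact Finset.sum_le_sum_of_subset_of_nonneg hV fun _ _ _ => by positivity
  refine h1.trans ?_
  have h2 : ∀ M, ∑ s ∈ Ico a M, ((r : ℝ)⁻¹) ^ (s + 1) ≤ ((r : ℝ)⁻¹) ^ a - ((r : ℝ)⁻¹) ^ (max a M) := by
    intro M
    induction M with
    | zero => simp
    | succ M ih =>
      rcases Nat.lt_or_ge M a with hM | hM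
      · have : Ico a (M + 1) = ∅ := Finset.Ico_eq_empty (by omega)
        rw [this, max_eq_left (by omega)]
        simp
      · rw [Finset.sum_Ico_succ_top hM, max_eq_right (by omega)]
        rw [max_eq_right hM] at ih
        have h3 : ((r : ℝ)⁻¹) ^ (M + 1) ≤ ((r : ℝ)⁻¹) ^ M * (1 / 2) := by
          rw [pow_succ]
          exact mul_le_mul_of_nonneg_left hq (by positivity)
        linarith
  have := h2 M
  have h3 : 0 < ((r : ℝ)⁻¹) ^ (max a M) := by positivity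
  linarith

/-- replacing `1/(u+v)` by its linearisation -/
theorem lin_err {u v : ℝ} (hu : 1 ≤ u) (hv : 0 ≤ v) :
    |(u + v)⁻¹ - (u⁻¹ - v / u ^ 2)| ≤ v ^ 2 := by
  have hu0 : u ≠ 0 := by positivity
  have huv : u + v ≠ 0 := by positivity
  have e : (u + v)⁻¹ - (u⁻¹ - v / u ^ 2) = v ^ 2 / (u ^ 2 * (u + v)) := by
    field_simp
    ring
  rw [e, abs_of_nonneg (by positivity)]
  refine div_le_self (by positivity) ?_
  have h1 : 1 ≤ u ^ 2 := by nlinarith
  nlinarith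

theorem win (h1 : S_CHR) (h2 : S_ANT) (h3 : S_BLK) : S_WIN := by
  intro r hr δ hδ hanti h m n a L l B M hh hmn hl hL ha hB1 hB2 hM
  classical
  have hr' : (2 : ℝ) ≤ r := by exact_mod_cast hr
  have hr0 : (0 : ℝ) < r := by linarith
  have hh' : (1 : ℝ) ≤ h := by exact_mod_cast hh
  have hδ1 := hδ.le_one
  set ξ : ℝ := (h : ℝ) * ((r : ℝ) ^ n - (r : ℝ) ^ m) with hξ
  -- bounds for ξ
  have hrm : (r : ℝ) ^ m ≤ (r : ℝ) ^ n / 2 := by
    have e1 : (r : ℝ) ^ (m + 1) ≤ (r : ℝ) ^ n := pow_le_pow_right₀ (by linarith) hmn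
    have e2 : 2 * (r : ℝ) ^ m ≤ (r : ℝ) ^ (m + 1) := by
      rw [pow_succ, mul_comm]
      exact mul_le_mul_of_nonneg_left hr' (by positivity)
    linarith
  have hξlow : (r : ℝ) ^ n / 2 ≤ ξ := by
    have e1 : (r : ℝ) ^ n / 2 ≤ (r : ℝ) ^ n - (r : ℝ) ^ m := by linarith
    calc (r : ℝ) ^ n / 2 ≤ (r : ℝ) ^ n - (r : ℝ) ^ m := e1
      _ ≤ (h : ℝ) * ((r : ℝ) ^ n - (r : ℝ) ^ m) := by
        refine le_mul_of_one_le_left ?_ hh'
        have : 0 < (r : ℝ) ^ n := by positivity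
        linarith
  have hξup : ξ ≤ (h : ℝ) * (r : ℝ) ^ n := by
    rw [hξ]
    refine mul_le_mul_of_nonneg_left ?_ (by positivity)
    have : 0 < (r : ℝ) ^ m := by positivity
    linarith
  have hξ0 : 0 < ξ := lt_of_lt_of_le (by positivity) hξlow
  -- κ_i
  set κ : ℕ → ℝ := fun i => ξ * ((r : ℝ)⁻¹) ^ (n - i * L) with hκ
  have hiL : ∀ i < B, (i + 1) * L ≤ B * L := fun i hi => Nat.mul_le_mul_right L hi
  have hκeq : ∀ i < B, κ i = ξ * ((r : ℝ)⁻¹) ^ n * (r : ℝ) ^ (i * L) := by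
    intro i hi
    have h5 := hiL i hi
    have h6 : i * L ≤ n := by
      have : (i + 1) * L = i * L + L := by ring
      omega
    simp only [hκ]
    have e : ((r : ℝ)⁻¹) ^ n = ((r : ℝ)⁻¹) ^ (n - i * L) * ((r : ℝ)⁻¹) ^ (i * L) := by
      rw [← pow_add]
      congr 1
      omega
    rw [e]
    have e2 : ((r : ℝ)⁻¹) ^ (i * L) * (r : ℝ) ^ (i * L) = 1 := by
      rw [← mul_pow, inv_mul_cancel₀ (ne_of_gt hr0), one_pow]
    calc ξ * ((r : ℝ)⁻¹) ^ (n - i * L)
        = ξ * ((r : ℝ)⁻¹) ^ (n - i * L) * (((r : ℝ)⁻¹) ^ (i * L) * (r : ℝ) ^ (i * L)) := by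
          rw [e2, mul_one]
      _ = _ := by ring
  have hq : ((r : ℝ)⁻¹) ^ n * (r : ℝ) ^ n = 1 := by
    rw [← mul_pow, inv_mul_cancel₀ (ne_of_gt hr0), one_pow]
  have hc1 : ξ * ((r : ℝ)⁻¹) ^ n ≤ h := by
    calc ξ * ((r : ℝ)⁻¹) ^ n ≤ ((h : ℝ) * (r : ℝ) ^ n) * ((r : ℝ)⁻¹) ^ n :=
          mul_le_mul_of_nonneg_right hξup (by positivity)
      _ = h * (((r : ℝ)⁻¹) ^ n * (r : ℝ) ^ n) := by ring
      _ = h := by rw [hq, mul_one]
  have hc2 : 1 / 2 ≤ ξ * ((r : ℝ)⁻¹) ^ n := by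
    calc (1 : ℝ) / 2 = ((r : ℝ) ^ n / 2) * ((r : ℝ)⁻¹) ^ n := by
          rw [div_mul_eq_mul_div, mul_comm, hq]
      _ ≤ ξ * ((r : ℝ)⁻¹) ^ n := mul_le_mul_of_nonneg_right hξlow (by positivity)
  -- probability of the i-th bad event
  set ρ : ℝ := ((r : ℝ)⁻¹) ^ L with hρ
  have hbad : ∀ i < B,
      EE δ (range a) (fun U => if nd (κ i / (1 + Z r U) ^ 2) < ρ / 2 then (1 : ℝ) else 0) ≤
        Real.exp (-(((L : ℝ) - 4 - l) * δ n)) := by
    intro i hi
    have h5 := hiL i hi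
    have h6 : (i + 1) * L = i * L + L := by ring
    have hκi := hκeq i hi
    have hκ0 : 0 < κ i := by
      rw [hκi]
      positivity
    have hρ0 : 0 < ρ := by positivity
    have hinv : (r : ℝ)⁻¹ ≤ 1 / 2 := by
      rw [inv_eq_one_div]
      exact one_div_le_one_div_of_le (by norm_num) hr'
    have hρ1 : ρ ≤ 1 / 4 := by
      calc ρ ≤ ((r : ℝ)⁻¹) ^ 2 := pow_le_pow_of_le_one (by positivity) (by linarith) (by omega)
        _ ≤ (1 / 2) ^ 2 := pow_le_pow_left₀ (by positivity) hinv 2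
        _ = 1 / 4 := by norm_num
    have hA1 : 2 * κ i * ((r : ℝ)⁻¹) ^ (i * L + l) ≤ 1 / 4 := by
      have e : 2 * κ i * ((r : ℝ)⁻¹) ^ (i * L + l) =
          2 * (ξ * ((r : ℝ)⁻¹) ^ n) * ((r : ℝ)⁻¹) ^ l := by
        rw [hκi, pow_add]
        have e2 : ((r : ℝ)⁻¹) ^ (i * L) * (r : ℝ) ^ (i * L) = 1 := by
          rw [← mul_pow, inv_mul_cancel₀ (ne_of_gt hr0), one_pow]
        calc 2 * (ξ * ((r : ℝ)⁻¹) ^ n * (r : ℝ) ^ (i * L)) *
              (((r : ℝ)⁻¹) ^ (i * L) * ((r : ℝ)⁻¹) ^ l)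
            = 2 * (ξ * ((r : ℝ)⁻¹) ^ n) * ((r : ℝ)⁻¹) ^ l *
              (((r : ℝ)⁻¹) ^ (i * L) * (r : ℝ) ^ (i * L)) := by ring
          _ = _ := by rw [e2, mul_one]
      rw [e]
      have hl' : 8 * (h : ℝ) ≤ (r : ℝ) ^ l := by exact_mod_cast hl
      have e3 : (h : ℝ) * ((r : ℝ)⁻¹) ^ l ≤ 1 / 8 := by
        rw [inv_pow, ← div_eq_mul_inv, div_le_div_iff₀ (by positivity) (by norm_num)]
        linarith
      calc 2 * (ξ * ((r : ℝ)⁻¹) ^ n) * ((r : ℝ)⁻¹) ^ l
          ≤ 2 * (h : ℝ) * ((r : ℝ)⁻¹) ^ l := by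
            refine mul_le_mul_of_nonneg_right ?_ (by positivity)
            linarith
        _ = 2 * ((h : ℝ) * ((r : ℝ)⁻¹) ^ l) := by ring
        _ ≤ 1 / 4 := by linarith
    have hA2 : ρ ≤ κ i / 4 * ((r : ℝ)⁻¹) ^ (i * L + (L - 4)) := by
      have e : κ i / 4 * ((r : ℝ)⁻¹) ^ (i * L + (L - 4)) =
          (ξ * ((r : ℝ)⁻¹) ^ n) / 4 * ((r : ℝ)⁻¹) ^ (L - 4) := by
        rw [hκi, pow_add]
        have e2 : ((r : ℝ)⁻¹) ^ (i * L) * (r : ℝ) ^ (i * L) = 1 := by
          rw [← mul_pow, inv_mul_cancel₀ (ne_of_gt hr0), one_pow]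
        calc ξ * ((r : ℝ)⁻¹) ^ n * (r : ℝ) ^ (i * L) / 4 *
              (((r : ℝ)⁻¹) ^ (i * L) * ((r : ℝ)⁻¹) ^ (L - 4))
            = (ξ * ((r : ℝ)⁻¹) ^ n) / 4 * ((r : ℝ)⁻¹) ^ (L - 4) *
              (((r : ℝ)⁻¹) ^ (i * L) * (r : ℝ) ^ (i * L)) := by ring
          _ = _ := by rw [e2, mul_one]
      rw [e]
      have e4 : ρ = ((r : ℝ)⁻¹) ^ (L - 4) * ((r : ℝ)⁻¹) ^ 4 := by
        rw [hρ, ← pow_add]
        congr 1
        omega
      have e5 : ((r : ℝ)⁻¹) ^ 4 ≤ 1 / 8 := by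
        calc ((r : ℝ)⁻¹) ^ 4 ≤ (1 / 2) ^ 4 := pow_le_pow_left₀ (by positivity) hinv 4
          _ ≤ 1 / 8 := by norm_num
      rw [e4]
      calc ((r : ℝ)⁻¹) ^ (L - 4) * ((r : ℝ)⁻¹) ^ 4 ≤ ((r : ℝ)⁻¹) ^ (L - 4) * (1 / 8) :=
            mul_le_mul_of_nonneg_left e5 (by positivity)
        _ ≤ ((r : ℝ)⁻¹) ^ (L - 4) * ((ξ * ((r : ℝ)⁻¹) ^ n) / 4) :=
            mul_le_mul_of_nonneg_left (by linarith) (by positivity)
        _ = _ := by ring
    refine (h2 r hr δ hδ a (i * L + l) (i * L + (L - 4)) (κ i) ρ (by omega) (by omega) hκ0 hρ0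
      hρ1 hA1 hA2).trans ?_
    have e6 : ∏ s ∈ Ico (i * L + l) (i * L + (L - 4)), (1 - δ s) ≤
        ∏ _s ∈ Ico (i * L + l) (i * L + (L - 4)), Real.exp (-(δ n)) := by
      refine Finset.prod_le_prod (fun s _ => by linarith [(hδ1 s).2]) fun s hs => ?_
      rw [Finset.mem_Ico] at hs
      have e7 : δ n ≤ δ s := hanti (by omega)
      have e8 := Real.add_one_le_exp (-(δ n))
      linarith
    refine e6.trans (le_of_eq ?_)
    rw [Finset.prod_const, Nat.card_Ico, ← Real.exp_nat_mul]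
    congr 1
    have e9 : i * L + (L - 4) - (i * L + l) = L - 4 - l := by omega
    rw [e9, Nat.cast_sub (by omega), Nat.cast_sub (by omega)]
    push_cast
    ring
  -- the pointwise estimate
  have hpt : ∀ U ∈ (range a).powerset,
      ‖EE δ (Ico a M) (fun V => ee (ξ * (1 + Z r (U ∪ V))⁻¹))‖ ≤
        (∑ i ∈ range B, if nd (κ i / (1 + Z r U) ^ 2) < ρ / 2 then (1 : ℝ) else 0) +
          (Real.exp (-(B * δ n / (r : ℝ) ^ 2)) +
            2 * Real.pi * h * (r : ℝ) ^ n * ((r : ℝ)⁻¹) ^ (2 * a)) := by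
    intro U hU
    rw [Finset.mem_powerset] at hU
    have herr0 : 0 ≤ 2 * Real.pi * h * (r : ℝ) ^ n * ((r : ℝ)⁻¹) ^ (2 * a) := by positivity
    by_cases hb : ∃ i < B, nd (κ i / (1 + Z r U) ^ 2) < ρ / 2
    · obtain ⟨i, hi, hb⟩ := hb
      have e1 : (1 : ℝ) ≤ ∑ i ∈ range B,
          if nd (κ i / (1 + Z r U) ^ 2) < ρ / 2 then (1 : ℝ) else 0 := by
        have := Finset.single_le_sum (f := fun i =>
          if nd (κ i / (1 + Z r U) ^ 2) < ρ / 2 then (1 : ℝ) else 0) (s := range B)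
          (fun j _ => by split_ifs <;> norm_num) (Finset.mem_range.2 hi)
        rw [if_pos hb] at this
        exact this
      have e2 := norm_EE_le_one hδ1 (Ico a M) (fun V => ξ * (1 + Z r (U ∪ V))⁻¹)
      have e3 := Real.exp_pos (-(B * δ n / (r : ℝ) ^ 2))
      linarith
    · push Not at hb
      have e1 : 0 ≤ ∑ i ∈ range B,
          if nd (κ i / (1 + Z r U) ^ 2) < ρ / 2 then (1 : ℝ) else 0 :=
        Finset.sum_nonneg fun j _ => by split_ifs <;> norm_num
      set u : ℝ := 1 + Z r U with hu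
      have hu1 : 1 ≤ u := by
        rw [hu]
        linarith [Z_nonneg r U]
      have hu0 : 0 < u := by linarith
      set θ : ℕ → ℝ := fun s => -(ξ / u ^ 2 * ((r : ℝ)⁻¹) ^ (s + 1)) with hθ
      -- linearisation
      have hZ : ∀ V ∈ (Ico a M).powerset, Z r (U ∪ V) = Z r U + Z r V := by
        intro V hV
        rw [Finset.mem_powerset] at hV
        refine Z_union ?_
        refine Finset.disjoint_left.2 fun s hs1 hs2 => ?_
        have := Finset.mem_range.1 (hU hs1)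
        have := (Finset.mem_Ico.1 (hV hs2)).1
        omega
      have hdiff : ‖EE δ (Ico a M) (fun V => ee (ξ * (1 + Z r (U ∪ V))⁻¹) -
          ee (ξ / u) * ee (∑ s ∈ V, θ s))‖ ≤
          2 * Real.pi * h * (r : ℝ) ^ n * ((r : ℝ)⁻¹) ^ (2 * a) := by
        refine (norm_EE_le hδ1 _ _).trans ?_
        refine (EE_mono hδ1 (Ico a M) (g := fun _ =>
          2 * Real.pi * h * (r : ℝ) ^ n * ((r : ℝ)⁻¹) ^ (2 * a)) ?_).trans
          (le_of_eq (EE_const δ _ _))
        intro V hV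
        have hVs := Finset.mem_powerset.1 hV
        rw [hZ V hV, ← add_assoc, ← ee_add]
        have hv0 : 0 ≤ Z r V := Z_nonneg r V
        have hv1 : Z r V ≤ ((r : ℝ)⁻¹) ^ a := Z_le hr hVs
        have e2 : ξ / u + ∑ s ∈ V, θ s = ξ * (u⁻¹ - Z r V / u ^ 2) := by
          simp only [hθ, Z]
          rw [Finset.sum_neg_distrib, ← Finset.mul_sum]
          ring
        rw [e2]
        refine (ee_sub_le _ _).trans ?_
        rw [← mul_sub, abs_mul, abs_of_pos hξ0]
        have e3 := lin_err hu1 hv0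
        have e4 : Z r V ^ 2 ≤ ((r : ℝ)⁻¹) ^ (2 * a) := by
          rw [mul_comm 2 a, pow_mul]
          exact pow_le_pow_left₀ hv0 hv1 2
        calc 2 * Real.pi * (ξ * |(u + Z r V)⁻¹ - (u⁻¹ - Z r V / u ^ 2)|)
            ≤ 2 * Real.pi * (((h : ℝ) * (r : ℝ) ^ n) * ((r : ℝ)⁻¹) ^ (2 * a)) := by
              refine mul_le_mul_of_nonneg_left ?_ (by positivity)
              exact mul_le_mul hξup (e3.trans e4) (abs_nonneg _) (by positivity)
          _ = _ := by ring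
      have hmain : ‖EE δ (Ico a M) (fun V => ee (ξ / u) * ee (∑ s ∈ V, θ s))‖ ≤
          Real.exp (-(B * δ n / (r : ℝ) ^ 2)) := by
        rw [EE_cmul, norm_mul, norm_ee, one_mul]
        refine (h1 δ hδ (Ico a M) θ).trans ?_
        rw [Real.exp_le_exp, neg_le_neg_iff]
        -- choose a point in each block
        have hθr : ∀ s, θ s = (r : ℝ) * θ (s + 1) := by
          intro s
          simp only [hθ]
          have e2 : (r : ℝ) * ((r : ℝ)⁻¹) ^ (s + 1 + 1) = ((r : ℝ)⁻¹) ^ (s + 1) := by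
            rw [pow_succ ((r : ℝ)⁻¹) (s + 1)]
            field_simp
          rw [← e2]
          ring
        have hch : ∀ i : ℕ, ∃ s : ℕ, i < B → n - (i + 1) * L ≤ s ∧ s + 1 + i * L ≤ n ∧
            1 / (2 * (r : ℝ)) ≤ nd (θ s) := by
          intro i
          by_cases hi : i < B
          · have h5 := hiL i hi
            have h6 : (i + 1) * L = i * L + L := by ring
            have h7 : i * L + L ≤ n := by omega
            have h8 : ((r : ℝ)⁻¹) ^ L / 2 ≤ nd (θ (n - i * L - 1)) := by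
              have e2 : θ (n - i * L - 1) = -(κ i / u ^ 2) := by
                simp only [hθ, hκ]
                have : n - i * L - 1 + 1 = n - i * L := by omega
                rw [this]
                ring
              rw [e2, nd_neg]
              exact hb i hi
            obtain ⟨s, hs1, hs2, hs3⟩ := h3 r L (n - i * L - 1) θ hr (by omega) (by omega) hθr h8
            exact ⟨s, fun _ => ⟨by omega, by omega, hs3⟩⟩
          · exact ⟨0, fun h => absurd h hi⟩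
        choose s hs using hch
        have hinj : Set.InjOn s (range B : Set ℕ) := by
          intro i hi j hj hij
          rw [Finset.mem_coe, Finset.mem_range] at hi hj
          obtain ⟨hi1, hi2, -⟩ := hs i hi
          obtain ⟨hj1, hj2, -⟩ := hs j hj
          by_contra hne
          rcases Nat.lt_or_gt_of_ne hne with hlt | hlt
          · have h5 : (i + 1) * L ≤ j * L := Nat.mul_le_mul_right L hlt
            have h6 := hiL i hi
            omega
          · have h5 : (j + 1) * L ≤ i * L := Nat.mul_le_mul_right L hlt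
            have h6 := hiL j hj
            omega
        have hsub : (range B).image s ⊆ Ico a M := by
          intro t ht
          rw [Finset.mem_image] at ht
          obtain ⟨i, hi, rfl⟩ := ht
          rw [Finset.mem_range] at hi
          obtain ⟨hi1, hi2, -⟩ := hs i hi
          have h6 := hiL i hi
          rw [Finset.mem_Ico]
          omega
        have e2 : ∑ t ∈ (range B).image s, δ t * nd (θ t) ^ 2 ≤
            ∑ t ∈ Ico a M, δ t * nd (θ t) ^ 2 :=
          Finset.sum_le_sum_of_subset_of_nonneg hsub fun t _ _ =>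
            mul_nonneg (hδ t).1 (by positivity)
        rw [Finset.sum_image hinj] at e2
        have e3 : ∑ i ∈ range B, δ n * (1 / (2 * (r : ℝ))) ^ 2 ≤
            ∑ i ∈ range B, δ (s i) * nd (θ (s i)) ^ 2 := by
          refine Finset.sum_le_sum fun i hi => ?_
          rw [Finset.mem_range] at hi
          obtain ⟨hi1, hi2, hi3⟩ := hs i hi
          refine mul_le_mul (hanti (by omega)) (pow_le_pow_left₀ (by positivity) hi3 2)
            (by positivity) (hδ _).1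
        rw [Finset.sum_const, Finset.card_range, nsmul_eq_mul] at e3
        calc (B : ℝ) * δ n / (r : ℝ) ^ 2 = 4 * ((B : ℝ) * (δ n * (1 / (2 * (r : ℝ))) ^ 2)) := by
              field_simp
              ring
          _ ≤ 4 * ∑ t ∈ Ico a M, δ t * nd (θ t) ^ 2 := by linarith
      have hsum : EE δ (Ico a M) (fun V => ee (ξ * (1 + Z r (U ∪ V))⁻¹)) =
          EE δ (Ico a M) (fun V => ee (ξ * (1 + Z r (U ∪ V))⁻¹) -
            ee (ξ / u) * ee (∑ s ∈ V, θ s)) +
          EE δ (Ico a M) (fun V => ee (ξ / u) * ee (∑ s ∈ V, θ s)) := by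
        rw [← EE_add]
        congr 1
        funext V
        ring
      rw [hsum]
      have e5 := norm_add_le (EE δ (Ico a M) (fun V => ee (ξ * (1 + Z r (U ∪ V))⁻¹) -
            ee (ξ / u) * ee (∑ s ∈ V, θ s)))
          (EE δ (Ico a M) (fun V => ee (ξ / u) * ee (∑ s ∈ V, θ s)))
      linarith
  -- conclusion
  have hsplit : range M = range a ∪ Ico a M := by
    ext s
    simp only [Finset.mem_union, Finset.mem_range, Finset.mem_Ico]
    omega
  have hdisj : Disjoint (range a) (Ico a M) := by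
    refine Finset.disjoint_left.2 fun s hs1 hs2 => ?_
    rw [Finset.mem_range] at hs1
    rw [Finset.mem_Ico] at hs2
    omega
  rw [hsplit, EE_union δ _ _ hdisj]
  refine (norm_EE_le hδ1 _ _).trans ?_
  refine (EE_mono hδ1 _ hpt).trans ?_
  rw [EE_add, EE_const, EE_sum]
  have e1 : ∑ i ∈ range B, EE δ (range a)
      (fun U => if nd (κ i / (1 + Z r U) ^ 2) < ρ / 2 then (1 : ℝ) else 0) ≤
      ∑ _i ∈ range B, Real.exp (-(((L : ℝ) - 4 - l) * δ n)) :=
    Finset.sum_le_sum fun i hi => hbad i (Finset.mem_range.1 hi)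
  rw [Finset.sum_const, Finset.card_range, nsmul_eq_mul] at e1
  linarith

end Pool.Agent.W613.DN
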